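import Pool.Agent.Run7.h435.Plane

/-!
# A polynomial-time algorithm for general-position subsets with ratio `O(√(n / log n))`

A deterministic Turing machine computes in polynomial time, from a list `S` of points of the plane
with rational coordinates, a subset `A S` in general position whose size is at least
`MG(S) / (C √(n / log (n + 1)))`, where `n` is the number of different points of `S`.
-/

namespace Pool.Agent.Results.MP_a23c49_lc.RatioSqrtLog

open Pool.Agent Pool.Agent.NPC

/-- The point of the Euclidean plane with given rational coordinates. -/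
noncomputable def pt (p : ℚ × ℚ) : EuclideanSpace ℝ (Fin 2) := !₂[(p.1 : ℝ), (p.2 : ℝ)]

/-- A set of points is in general position if no three of its points lie on a common line. -/
def GenPos (T : Finset (ℚ × ℚ)) : Prop :=
  ∀ a ∈ T, ∀ b ∈ T, ∀ c ∈ T, a ≠ b → b ≠ c → a ≠ c → ¬ Collinear ℝ {pt a, pt b, pt c}

/-- The largest size of a subset in general position. -/
noncomputable def MG (S : Finset (ℚ × ℚ)) : ℕ := sSup {k | ∃ T ⊆ S, GenPos T ∧ T.card = k}

theorem genPos_iff (T : Finset (ℚ × ℚ)) :
    GenPos T ↔ Run7.h435.GP (Run7.h435.rel Run7.h435.colB) T := by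
  unfold GenPos Run7.h435.GP
  constructor
  · intro h a ha b hb c hc hR
    rw [Run7.h435.colB_iff] at hR
    obtain ⟨h1, h2, h3, h4⟩ := hR
    exact h a ha b hb c hc h1 h2 h3 ((Run7.h435.collinear_toPlane h1).2 h4)
  · intro h a ha b hb c hc h1 h2 h3 hcol
    exact h a ha b hb c hc
      ((Run7.h435.colB_iff a b c).2 ⟨h1, h2, h3, (Run7.h435.collinear_toPlane h1).1 hcol⟩)

/-- There is a polynomial-time algorithm for the largest general-position subset of `n` points of
the plane with approximation ratio `O(√(n / log n))`. -/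
theorem result : ∃ A : List (ℚ × ℚ) → List (ℚ × ℚ),
    Nonempty (Turing.TM2ComputableInPolyTime (bits : List (ℚ × ℚ) → List Bool)
      (bits : List (ℚ × ℚ) → List Bool) A) ∧
    (∀ S : List (ℚ × ℚ), (A S).Nodup ∧ (A S).toFinset ⊆ S.toFinset ∧ GenPos (A S).toFinset) ∧
    ∃ C : ℝ, ∀ S : List (ℚ × ℚ), (MG S.toFinset : ℝ) ≤
      C * √((S.toFinset.card : ℝ) / Real.log ((S.toFinset.card : ℝ) + 1)) * (A S).length := by
  refine ⟨Run7.h435.algL Run7.h435.colB,
    NPC.H532.Poly.toTM (Run7.h435.Poly_algL Run7.h435.Poly_colB), ?_, 40000, ?_⟩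
  · intro S
    obtain ⟨h1, h2, h3⟩ := Run7.h435.algL_valid Run7.h435.colB Run7.h435.lin_colB S
    refine ⟨h1, ?_, ?_⟩
    · intro x hx
      rw [List.mem_toFinset] at hx ⊢
      exact h2 x hx
    · rw [genPos_iff]
      intro a ha b hb c hc
      rw [List.mem_toFinset] at ha hb hc
      exact h3 a ha b hb c hc
  · intro S
    have hne : {k | ∃ T ⊆ S.toFinset, GenPos T ∧ T.card = k}.Nonempty :=
      ⟨0, ∅, by simp, by intro a ha; simp at ha, rfl⟩
    have hbd : BddAbove {k | ∃ T ⊆ S.toFinset, GenPos T ∧ T.card = k} := by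
      refine ⟨S.toFinset.card, ?_⟩
      rintro k ⟨T, hT, _, rfl⟩
      exact Finset.card_le_card hT
    obtain ⟨T, hT, hG, hc⟩ := Nat.sSup_mem hne hbd
    have h1 := Run7.h435.algL_ratio Run7.h435.colB Run7.h435.lin_colB S
      ((genPos_iff T).1 hG) hT
    have h2 : MG S.toFinset = T.card := hc.symm
    rw [h2]
    exact h1

end Pool.Agent.Results.MP_a23c49_lc.RatioSqrtLog
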